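import Pool.Agent.Helper24.SQ.Crit

/-!
# Critical points of power sums
-/

set_option autoImplicit false

namespace Pool.Agent.Helper73.PS

open MvPolynomial Finset Pool.Agent.Helper24.SQ

/-- the substitution: the last two variables become `t - ∑ X i` and `1` -/
noncomputable def sub (N : ℕ) : Fin (N + 2) → MvPolynomial (Option (Fin N)) ℂ :=
  Fin.snoc (Fin.snoc (fun i => X (some i)) (X none - ∑ i, X (some i))
    : Fin (N + 1) → MvPolynomial (Option (Fin N)) ℂ) 1

/-- the power sum -/
noncomputable def ps (n d : ℕ) : MvPolynomial (Fin n) ℂ := ∑ i, X i ^ d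

theorem aeval_sub_ps (N d : ℕ) : aeval (sub N) (ps (N + 2) d) =
    ∑ i : Fin N, X (some i) ^ d + (X none - ∑ i, X (some i)) ^ d + 1 := by
  unfold ps
  rw [map_sum, Fin.sum_univ_castSucc, Fin.sum_univ_castSucc]
  simp [sub]

/-- the point attached to `w`, `l` -/
noncomputable def pt {N : ℕ} (w : Fin N → ℂ) (l : ℂ) : Option (Fin N) → ℂ :=
  fun o => o.elim (l * (1 + ∑ i, w i)) fun i => w i * l

theorem eval_lam {N : ℕ} (w : Fin N → ℂ) (l : ℂ) :
    eval (pt w l) (X none - ∑ i : Fin N, X (some i) : MvPolynomial (Option (Fin N)) ℂ) = l := by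
  simp only [map_sub, map_sum, eval_X, pt, Option.elim]
  rw [← Finset.sum_mul]
  ring

theorem pderiv_some_F (N d : ℕ) (v : Fin N) :
    pderiv (some v) (∑ i : Fin N, X (some i) ^ d + (X none - ∑ i, X (some i)) ^ d + 1 :
      MvPolynomial (Option (Fin N)) ℂ) =
    C (d : ℂ) * (X (some v) ^ (d - 1) - (X none - ∑ i, X (some i)) ^ (d - 1)) := by
  have h1 : pderiv (some v) (X none - ∑ i : Fin N, X (some i) : MvPolynomial (Option (Fin N)) ℂ) = -1 := by
    rw [map_sub, map_sum, pderiv_X_of_ne (by simp), Finset.sum_eq_single v]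
    · rw [pderiv_X_self]; ring
    · intro b _ hb
      exact pderiv_X_of_ne (by simpa using hb)
    · simp
  have h2 : pderiv (some v) (∑ i : Fin N, X (some i) ^ d : MvPolynomial (Option (Fin N)) ℂ) =
      C (d : ℂ) * X (some v) ^ (d - 1) := by
    rw [map_sum, Finset.sum_eq_single v]
    · rw [pderiv_pow, pderiv_X_self, map_natCast]; ring
    · intro b _ hb
      rw [pderiv_pow, pderiv_X_of_ne (by simpa using hb), mul_zero]
    · simp
  rw [map_add, map_add, h2, pderiv_pow, h1, pderiv_one, map_natCast]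
  ring

theorem pderiv_none_F (N d : ℕ) :
    pderiv none (∑ i : Fin N, X (some i) ^ d + (X none - ∑ i, X (some i)) ^ d + 1 :
      MvPolynomial (Option (Fin N)) ℂ) =
    C (d : ℂ) * (X none - ∑ i, X (some i)) ^ (d - 1) := by
  have h1 : pderiv none (X none - ∑ i : Fin N, X (some i) : MvPolynomial (Option (Fin N)) ℂ) = 1 := by
    rw [map_sub, map_sum, pderiv_X_self, Finset.sum_eq_zero]
    · ring
    · intro b _
      exact pderiv_X_of_ne (by simp)
  have h2 : pderiv none (∑ i : Fin N, X (some i) ^ d : MvPolynomial (Option (Fin N)) ℂ) = 0 := by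
    rw [map_sum]
    exact Finset.sum_eq_zero fun b _ => by rw [pderiv_pow, pderiv_X_of_ne (by simp), mul_zero]
  rw [map_add, map_add, h2, pderiv_pow, h1, pderiv_one, map_natCast]
  ring

theorem pderiv_pderiv_F (N d : ℕ) (v v' : Fin N) :
    pderiv (some v') (pderiv (some v) (∑ i : Fin N, X (some i) ^ d + (X none - ∑ i, X (some i)) ^ d + 1 :
      MvPolynomial (Option (Fin N)) ℂ)) =
    C ((d : ℂ) * ((d - 1 : ℕ) : ℂ)) * ((if v' = v then X (some v) ^ (d - 1 - 1) else 0) +
      (X none - ∑ i, X (some i)) ^ (d - 1 - 1)) := by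
  rw [pderiv_some_F]
  have h1 : pderiv (some v') (X none - ∑ i : Fin N, X (some i) : MvPolynomial (Option (Fin N)) ℂ) = -1 := by
    rw [map_sub, map_sum, pderiv_X_of_ne (by simp), Finset.sum_eq_single v']
    · rw [pderiv_X_self]; ring
    · intro b _ hb
      exact pderiv_X_of_ne (by simpa using hb)
    · simp
  rw [pderiv_C_mul, map_sub, pderiv_pow, pderiv_pow, h1]
  by_cases h : v' = v
  · subst h
    rw [if_pos rfl, pderiv_X_self, C_mul, map_natCast, map_natCast]
    ring
  · rw [if_neg h, pderiv_X_of_ne (by simpa using Ne.symm h), C_mul, map_natCast, map_natCast]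
    ring

theorem critPt {N d : ℕ} (hd : 2 ≤ d) (w : Fin N → ℂ) (hw : ∀ i, w i ^ (d - 1) = 1)
    (hs : 1 + ∑ i, w i ≠ 0) (l : ℂ) (hl : l ^ d = -(1 + ∑ i, w i)⁻¹) :
    CritPt (aeval (sub N) (ps (N + 2) d)) (pt w l) := by
  have hdC : (d : ℂ) ≠ 0 := by exact_mod_cast (by omega : d ≠ 0)
  have hd1C : ((d - 1 : ℕ) : ℂ) ≠ 0 := by exact_mod_cast (by omega : d - 1 ≠ 0)
  have hl0 : l ≠ 0 := by
    rintro rfl
    rw [zero_pow (by omega)] at hl
    exact inv_ne_zero hs (neg_eq_zero.1 hl.symm)
  have hwd : ∀ i, w i ^ d = w i := by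
    intro i
    obtain ⟨e, rfl⟩ : ∃ e, d = e + 1 := ⟨d - 1, by omega⟩
    rw [pow_succ]
    have := hw i
    rw [Nat.add_sub_cancel] at this
    rw [this, one_mul]
  have hw0 : ∀ i, w i ≠ 0 := by
    intro i h
    have := hw i
    rw [h, zero_pow (by omega)] at this
    exact zero_ne_one this
  rw [aeval_sub_ps]
  refine ⟨?_, ?_, ?_, ?_⟩
  · rw [map_add, map_add, map_pow, eval_lam, map_sum, map_one]
    have : ∀ i : Fin N, eval (pt w l) (X (some i) ^ d : MvPolynomial (Option (Fin N)) ℂ) = w i * l ^ d := by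
      intro i
      rw [map_pow, eval_X]
      show (w i * l) ^ d = _
      rw [mul_pow, hwd]
    simp only [this]
    rw [← Finset.sum_mul, hl]
    field_simp
    ring
  · intro v
    rw [pderiv_some_F, map_mul, map_sub, map_pow, map_pow, eval_lam, eval_X]
    show _ * ((w v * l) ^ (d - 1) - _) = 0
    rw [mul_pow, hw, one_mul, sub_self, mul_zero]
  · rw [pderiv_none_F, map_mul, map_pow, eval_lam, eval_C]
    exact mul_ne_zero hdC (pow_ne_zero _ hl0)
  · intro u hu
    have key : ∀ v, (w v)⁻¹ * u v + ∑ v', u v' = 0 := by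
      intro v
      have h := hu v
      simp only [pderiv_pderiv_F] at h
      simp only [map_mul, map_add, map_pow, eval_C, eval_lam] at h
      have h2 : ∀ v' : Fin N, (d : ℂ) * ((d - 1 : ℕ) : ℂ) *
          (eval (pt w l) (if v' = v then (X (some v) : MvPolynomial (Option (Fin N)) ℂ) ^ (d - 1 - 1) else 0) +
            l ^ (d - 1 - 1)) * u v' =
          (d : ℂ) * ((d - 1 : ℕ) : ℂ) * l ^ (d - 1 - 1) * ((if v' = v then (w v)⁻¹ * u v else 0) + u v') := by
        intro v'
        by_cases h : v' = v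
        · subst h
          rw [if_pos rfl, if_pos rfl, map_pow, eval_X]
          have h3 : (pt w l (some v')) ^ (d - 1 - 1) = (w v')⁻¹ * l ^ (d - 1 - 1) := by
            show (w v' * l) ^ (d - 1 - 1) = _
            rw [mul_pow]
            congr 1
            refine eq_inv_of_mul_eq_one_left ?_
            rw [← pow_succ]
            have : d - 1 - 1 + 1 = d - 1 := by omega
            rw [this, hw]
          rw [h3]
          ring
        · rw [if_neg h, if_neg h, map_zero]
          ring
      simp only [h2] at h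
      rw [← Finset.mul_sum, Finset.sum_add_distrib, Finset.sum_ite_eq' , if_pos (mem_univ _)] at h
      rcases mul_eq_zero.1 h with h | h
      · exact absurd h (mul_ne_zero (mul_ne_zero hdC hd1C) (pow_ne_zero _ hl0))
      · exact h
    set S := ∑ v', u v' with hS
    have hu2 : ∀ v, u v = -(w v * S) := by
      intro v
      have := key v
      have h2 := hw0 v
      field_simp at this
      linear_combination this
    have hS0 : S = 0 := by
      have : S = -((∑ i, w i) * S) := by
        conv_lhs => rw [hS]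
        rw [Finset.sum_congr rfl fun v _ => hu2 v, Finset.sum_neg_distrib, ← Finset.sum_mul]
      have h3 : (1 + ∑ i, w i) * S = 0 := by linear_combination this
      exact (mul_eq_zero.1 h3).resolve_left hs
    funext v
    rw [hu2 v, hS0, mul_zero, neg_zero]
    rfl

end Pool.Agent.Helper73.PS
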