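import Pool.Agent.Helper73.PS.Crit
import Pool.Agent.Helper74.Bez.Final2
import Pool.Agent.Helper74.Circ.Near

/-!
# Border determinantal complexity of power sums
-/

set_option autoImplicit false

namespace Pool.Agent.Helper73.PS

open MvPolynomial Finset Pool.Agent.Helper24.SQ

/-- the admissible tuples of roots of unity -/
noncomputable def W (N d : ℕ) : Finset (Fin N → ℂ) := by
  classical
  exact (Fintype.piFinset fun _ : Fin N => Polynomial.nthRootsFinset (d - 1) (1 : ℂ)).filter
    fun w => 1 + ∑ i, w i ≠ 0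

theorem card_roots {e : ℕ} (he : 0 < e) : (Polynomial.nthRootsFinset e (1 : ℂ)).card = e :=
  (Complex.isPrimitiveRoot_exp e he.ne').card_nthRootsFinset

theorem card_W_ge {N d : ℕ} (hN : 1 ≤ N) (hd : 2 ≤ d) :
    3 * (d - 1) ^ (N + 1) ≤ 4 * (d * (W N d).card) := by
  classical
  obtain ⟨k, rfl⟩ : ∃ k, N = k + 1 := ⟨N - 1, by omega⟩
  set R := Polynomial.nthRootsFinset (d - 1) (1 : ℂ) with hR
  have hRc : R.card = d - 1 := card_roots (by omega)
  set T := Fintype.piFinset fun _ : Fin (k + 1) => R with hT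
  have hTc : T.card = (d - 1) ^ (k + 1) := by
    rw [hT, Fintype.card_piFinset]; simp [hRc]
  have hbad : (T.filter fun w => ¬ (1 + ∑ i, w i ≠ 0)).card ≤ if d = 2 then 0 else (d - 1) ^ k := by
    split_ifs with h2
    · rw [Nat.le_zero, Finset.card_eq_zero, Finset.filter_eq_empty_iff]
      intro w hw
      rw [hT, Fintype.mem_piFinset] at hw
      have h1 : ∀ i, w i = 1 := by
        intro i
        have := hw i
        rw [hR, Polynomial.mem_nthRootsFinset (by omega)] at this
        subst h2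
        simpa using this
      simp only [h1, sum_const, card_univ, Fintype.card_fin, nsmul_eq_mul, mul_one, ne_eq, not_not]
      intro h
      have : ((1 + (k + 1) : ℕ) : ℂ) = 0 := by push_cast; exact_mod_cast h
      rw [Nat.cast_eq_zero] at this
      omega
    · calc (T.filter fun w => ¬ (1 + ∑ i, w i ≠ 0)).card
          ≤ (Fintype.piFinset fun _ : Fin k => R).card := by
            refine Finset.card_le_card_of_injOn (fun w => Fin.init w) ?_ ?_
            · intro w hw
              rw [Finset.mem_coe, Finset.mem_filter, hT, Fintype.mem_piFinset] at hw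
              rw [Finset.mem_coe, Fintype.mem_piFinset]
              exact fun i => hw.1 _
            · intro w hw w' hw' h
              rw [Finset.mem_coe, Finset.mem_filter, not_not] at hw hw'
              have h1 := hw.2
              have h2 := hw'.2
              rw [Fin.sum_univ_castSucc] at h1 h2
              have h3 : ∀ i : Fin k, w (Fin.castSucc i) = w' (Fin.castSucc i) := fun i => congrFun h i
              simp only [h3] at h1
              have h4 : w (Fin.last k) = w' (Fin.last k) := by linear_combination h1 - h2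
              funext i
              refine Fin.lastCases h4 (fun i => h3 i) i
        _ = (d - 1) ^ k := by rw [Fintype.card_piFinset]; simp [hRc]
  have hsum : (W (k + 1) d).card + (T.filter fun w => ¬ (1 + ∑ i, w i ≠ 0)).card = (d - 1) ^ (k + 1) := by
    rw [← hTc]
    exact Finset.card_filter_add_card_filter_not _
  split_ifs at hbad with h2
  · subst h2
    have : (W (k + 1) 2).card = 1 := by
      rw [Nat.le_zero.1 hbad] at hsum
      simpa using hsum
    rw [this]; simp
  · obtain ⟨e, rfl⟩ : ∃ e, d = e + 3 := ⟨d - 3, by omega⟩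
    simp only [show e + 3 - 1 = e + 2 by omega] at *
    have h5 : (e + 2) ^ k * (e + 1) ≤ (W (k + 1) (e + 3)).card := by
      have : (e + 2) ^ (k + 1) = (e + 2) ^ k * (e + 1) + (e + 2) ^ k := by ring
      omega
    calc 3 * (e + 2) ^ (k + 1 + 1) = (e + 2) ^ k * (3 * (e + 2) ^ 2) := by ring
      _ ≤ (e + 2) ^ k * (4 * ((e + 3) * (e + 1))) := Nat.mul_le_mul_left _ (by nlinarith)
      _ = 4 * ((e + 3) * ((e + 2) ^ k * (e + 1))) := by ring
      _ ≤ _ := Nat.mul_le_mul_left _ (Nat.mul_le_mul_left _ h5)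

/-- the set of critical points -/
noncomputable def Z (N d : ℕ) : Finset (Option (Fin N) → ℂ) := by
  classical
  exact (W N d).biUnion fun w =>
    ((Polynomial.nthRoots d (-(1 + ∑ i, w i)⁻¹)).toFinset).image (pt w)

theorem card_nthRoots {d : ℕ} (hd : 0 < d) {a : ℂ} (ha : a ≠ 0) :
    (Polynomial.nthRoots d a).toFinset.card = d := by
  classical
  obtain ⟨b, hb⟩ := IsAlgClosed.exists_pow_nat_eq a hd
  have hb0 : b ≠ 0 := by rintro rfl; rw [zero_pow hd.ne'] at hb; exact ha hb.symm
  have hp := Complex.isPrimitiveRoot_exp d hd.ne'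
  have h := hp.card_nthRoots a
  rw [if_pos ⟨b, hb⟩] at h
  rw [Multiset.toFinset_card_of_nodup (hp.nthRoots_nodup ha), h]

theorem card_Z {N d : ℕ} (hd : 2 ≤ d) : (Z N d).card = d * (W N d).card := by
  classical
  unfold Z
  rw [Finset.card_biUnion]
  · rw [Finset.sum_congr rfl (g := fun _ => d), sum_const, smul_eq_mul, mul_comm]
    intro w hw
    have hw2 : 1 + ∑ i, w i ≠ 0 := by
      unfold W at hw
      exact (Finset.mem_filter.1 hw).2
    rw [Finset.card_image_of_injOn, card_nthRoots (by omega) (neg_ne_zero.2 (inv_ne_zero hw2))]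
    intro l _ l' _ h
    have := congrFun h none
    simp only [pt, Option.elim_none] at this
    exact mul_right_cancel₀ hw2 this
  · intro w hw w' hw' hne
    rw [Function.onFun, Finset.disjoint_left]
    intro z hz hz'
    rw [Finset.mem_image] at hz hz'
    obtain ⟨l, hl, rfl⟩ := hz
    obtain ⟨l', hl', h⟩ := hz'
    have hw2 : 1 + ∑ i, w i ≠ 0 := by
      unfold W at hw
      exact (Finset.mem_filter.1 hw).2
    have hl0 : l ≠ 0 := by
      rintro rfl
      rw [Multiset.mem_toFinset, Polynomial.mem_nthRoots (by omega), zero_pow (by omega)] at hl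
      exact neg_ne_zero.2 (inv_ne_zero hw2) hl.symm
    have hll : l' = l := by
      have e := congrArg (fun z => eval z (X none - ∑ i : Fin N, X (some i) :
        MvPolynomial (Option (Fin N)) ℂ)) h
      simpa only [eval_lam] using e
    subst hll
    apply hne
    funext i
    have := congrFun h (some i)
    simp only [pt, Option.elim_some] at this
    exact (mul_right_cancel₀ hl0 this).symm

theorem crit_Z {N d : ℕ} (hd : 2 ≤ d) : ∀ z ∈ Z N d, CritPt (aeval (sub N) (ps (N + 2) d)) z := by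
  classical
  intro z hz
  unfold Z at hz
  rw [Finset.mem_biUnion] at hz
  obtain ⟨w, hw, hz⟩ := hz
  obtain ⟨l, hl, rfl⟩ := Finset.mem_image.1 hz
  unfold W at hw
  rw [Finset.mem_filter, Fintype.mem_piFinset] at hw
  refine critPt hd w (fun i => ?_) hw.2 l ?_
  · have := hw.1 i
    rwa [Polynomial.mem_nthRootsFinset (by omega)] at this
  · rwa [Multiset.mem_toFinset, Polynomial.mem_nthRoots (by omega)] at hl

/-- the substitution preserves determinantal representations -/
theorem detRep_sub {N m : ℕ} {P : MvPolynomial (Fin (N + 2)) ℂ} (h : DetRep P m) :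
    DetRep (aeval (sub N) P) m := by
  obtain ⟨A₀, L, hL⟩ := h
  refine ⟨A₀ + L (Fin.last (N + 1)), fun o => o.elim (L (Fin.castSucc (Fin.last N)))
    fun i => L (Fin.castSucc (Fin.castSucc i)) - L (Fin.castSucc (Fin.last N)), fun x => ?_⟩
  have h1 : eval x (aeval (sub N) P) = eval (fun j => eval x (sub N j)) P := by
    rw [← coe_aeval_eq_eval x, RingHom.coe_coe, ← AlgHom.comp_apply, comp_aeval, ← coe_aeval_eq_eval]
    rfl
  rw [h1, hL, Fin.sum_univ_castSucc, Fin.sum_univ_castSucc, Fintype.sum_option]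
  congr 1
  simp only [sub, Fin.snoc_castSucc, Fin.snoc_last, map_sub, map_sum, eval_X, map_one, one_smul,
    Option.elim_none, Option.elim_some, smul_sub, Finset.sum_sub_distrib, sub_smul, Finset.sum_smul]
  abel

theorem detRep_degree {n m : ℕ} (A₀ : Matrix (Fin m) (Fin m) ℂ)
    (A : Fin n → Matrix (Fin m) (Fin m) ℂ) :
    (A₀.map C + ∑ v, (X v : MvPolynomial (Fin n) ℂ) • (A v).map C :
      Matrix (Fin m) (Fin m) (MvPolynomial (Fin n) ℂ)).det.totalDegree ≤ m := by
  classical
  rw [Matrix.det_apply]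
  refine totalDegree_finsetSum_le fun σ _ => ?_
  refine (totalDegree_smul_le _ _).trans ?_
  refine (totalDegree_finsetProd _ _).trans ?_
  calc _ ≤ ∑ i : Fin m, 1 := Finset.sum_le_sum fun i _ => ?_
    _ = m := by simp
  rw [Matrix.add_apply, Matrix.sum_apply]
  refine (totalDegree_add _ _).trans (max_le ?_ ?_)
  · simp
  · refine totalDegree_finsetSum_le fun v _ => ?_
    rw [Matrix.smul_apply, smul_eq_mul]
    refine (totalDegree_mul _ _).trans ?_
    simp

/-- `Q m P`: `P` is the determinant of a matrix of affine linear forms of size `m` -/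
def Q {n : ℕ} (m : ℕ) (P : MvPolynomial (Fin n) ℂ) : Prop :=
  ∃ (A₀ : Matrix (Fin m) (Fin m) ℂ) (A : Fin n → Matrix (Fin m) (Fin m) ℂ),
    P = (A₀.map C + ∑ v, (X v : MvPolynomial (Fin n) ℂ) • (A v).map C :
      Matrix (Fin m) (Fin m) (MvPolynomial (Fin n) ℂ)).det

theorem Q.detRep {n m : ℕ} {P : MvPolynomial (Fin n) ℂ} (h : Q m P) : DetRep P m := by
  obtain ⟨A₀, A, rfl⟩ := h
  refine ⟨A₀, A, fun x => ?_⟩
  rw [← coe_aeval_eq_eval, RingHom.coe_coe, AlgHom.map_det]
  congr 1
  ext i j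
  simp [Matrix.sum_apply, AlgHom.mapMatrix_apply]

theorem degree_le {n d m : ℕ} (hn : 1 ≤ n) (hd : 1 ≤ d)
    (h : ∀ ε : ℝ, 0 < ε → ∃ P : MvPolynomial (Fin n) ℂ, Q m P ∧ ∀ s, ‖P.coeff s - (ps n d).coeff s‖ < ε) :
    d ≤ m := by
  classical
  obtain ⟨P, ⟨A₀, A, rfl⟩, hP⟩ := h 1 one_pos
  by_contra hlt
  push Not at hlt
  set i0 : Fin n := ⟨0, hn⟩
  have h1 := hP (Finsupp.single i0 d)
  have h2 : (ps n d).coeff (Finsupp.single i0 d) = 1 := by
    unfold ps
    rw [coeff_sum, Finset.sum_eq_single i0]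
    · rw [coeff_X_pow, if_pos rfl]
    · intro j _ hj
      rw [coeff_X_pow, if_neg]
      intro h
      have := DFunLike.congr_fun h j
      rw [Finsupp.single_eq_same, Finsupp.single_eq_of_ne hj] at this
      omega
    · simp
  have h3 : (A₀.map C + ∑ v, (X v : MvPolynomial (Fin n) ℂ) • (A v).map C :
      Matrix (Fin m) (Fin m) (MvPolynomial (Fin n) ℂ)).det.coeff (Finsupp.single i0 d) = 0 := by
    refine coeff_eq_zero_of_totalDegree_lt ?_
    refine lt_of_le_of_lt (detRep_degree A₀ A) ?_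
    rw [← Finsupp.degree_apply, Finsupp.degree_single]
    exact hlt
  rw [h2, h3] at h1
  norm_num at h1

theorem num {N d m : ℕ} (hN : 1 ≤ N) (hd : 2 ≤ d) (hm : 1 ≤ m)
    (h : ((d * (W N d).card : ℕ) : ℝ) ≤ 2 * Real.exp 1 *
      (2 * Real.exp 1 * (2 * m + 1) / (N + 2 : ℕ)) ^ (N + 1)) :
    ((N + 2 : ℕ) : ℝ) * d ≤ 100 * m := by
  have he : Real.exp 1 < 2.7182818286 := Real.exp_one_lt_d9
  have he0 : 0 < Real.exp 1 := Real.exp_pos 1
  set B := 2 * Real.exp 1 * (2 * m + 1) / ((N + 2 : ℕ) : ℝ) with hB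
  have hB0 : 0 ≤ B := by positivity
  have h1 : (3 : ℝ) * ((d - 1 : ℕ) : ℝ) ^ (N + 1) ≤ 4 * ((d * (W N d).card : ℕ) : ℝ) := by
    exact_mod_cast card_W_ge hN hd
  have h2 : ((d - 1 : ℕ) : ℝ) ^ (N + 1) ≤ (3 * B) ^ (N + 1) := by
    have h3 : (9 : ℝ) ≤ 3 ^ (N + 1) := by
      calc (9 : ℝ) = 3 ^ 2 := by norm_num
        _ ≤ 3 ^ (N + 1) := pow_le_pow_right₀ (by norm_num) (by omega)
    rw [mul_pow]
    have h4 : 0 ≤ B ^ (N + 1) := by positivity
    nlinarith
  have h3 : ((d - 1 : ℕ) : ℝ) ≤ 3 * B := by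
    refine le_of_pow_le_pow_left₀ (n := N + 1) (by omega) (by positivity) h2
  have h4 : (d : ℝ) ≤ 2 * ((d - 1 : ℕ) : ℝ) := by
    have : d ≤ 2 * (d - 1) := by omega
    exact_mod_cast this
  have hN2 : (0 : ℝ) < ((N + 2 : ℕ) : ℝ) := by positivity
  have h5 : ((N + 2 : ℕ) : ℝ) * B = 2 * Real.exp 1 * (2 * m + 1) := by
    rw [hB]; field_simp
  have hm1 : (1 : ℝ) ≤ m := by exact_mod_cast hm
  calc ((N + 2 : ℕ) : ℝ) * d ≤ ((N + 2 : ℕ) : ℝ) * (2 * (3 * B)) := by
        refine mul_le_mul_of_nonneg_left ?_ hN2.le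
        linarith
    _ = 6 * (2 * Real.exp 1 * (2 * m + 1)) := by rw [← h5]; ring
    _ ≤ 100 * m := by nlinarith

theorem main {n d m : ℕ} (hd : 2 ≤ d)
    (h : ∀ ε : ℝ, 0 < ε → ∃ P : MvPolynomial (Fin n) ℂ, Q m P ∧ ∀ s, ‖P.coeff s - (ps n d).coeff s‖ < ε) :
    (n : ℝ) * d ≤ 100 * m := by
  classical
  rcases Nat.eq_zero_or_pos n with h0 | hn
  · subst h0
    simp
  have hdm : d ≤ m := degree_le hn (by omega) h
  have hdm' : (d : ℝ) ≤ m := by exact_mod_cast hdm
  have hd0 : (2 : ℝ) ≤ d := by exact_mod_cast hd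
  by_cases hn3 : n ≤ 2
  · have : (n : ℝ) ≤ 2 := by exact_mod_cast hn3
    nlinarith
  obtain ⟨N, rfl⟩ : ∃ N, n = N + 2 := ⟨n - 2, by omega⟩
  obtain ⟨P, Z', hQ, hZ', hcrit⟩ := Circ.exists_near (ps (N + 2) d) (Q m) m
    (fun P hP => by obtain ⟨A₀, A, rfl⟩ := hP; exact detRep_degree A₀ A) h (sub N) (Z N d) (crit_Z hd)
  obtain ⟨A₀, L, hL⟩ := detRep_sub hQ.detRep
  have hb := Bez2.critPt_bound m _ A₀ L hL Z' hcrit
  rw [hZ', card_Z hd, Fintype.card_fin] at hb
  exact num (by omega) hd (by omega) hb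

end Pool.Agent.Helper73.PS
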