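import Pool.Agent.Helper73.PS.Main

/-!
# Border determinantal complexity of power sums: at least `n d / 100`
-/

set_option autoImplicit false

namespace Pool.Agent.Helper73.PS

open Matrix

/-- If the power sum `∑ x_i ^ d` of `n` variables, `d ≥ 2`, is a limit (coefficient by coefficient) of
determinants of `m × m` matrices of affine linear forms over `ℂ`, then `m ≥ n d / 100`. -/
theorem result (n d m : ℕ) (hd : 2 ≤ d)
    (h : ∀ ε : ℝ, 0 < ε → ∃ (A₀ : Matrix (Fin m) (Fin m) ℂ) (A : Fin n → Matrix (Fin m) (Fin m) ℂ),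
      ∀ s : Fin n →₀ ℕ,
        ‖MvPolynomial.coeff s (A₀.map MvPolynomial.C +
            ∑ v, (MvPolynomial.X v : MvPolynomial (Fin n) ℂ) • (A v).map MvPolynomial.C).det -
          MvPolynomial.coeff s (∑ i : Fin n, (MvPolynomial.X i : MvPolynomial (Fin n) ℂ) ^ d)‖ < ε) :
    (n : ℝ) * d / 100 ≤ m := by
  have := main (n := n) (d := d) (m := m) hd fun ε hε => by
    obtain ⟨A₀, A, hA⟩ := h ε hε
    exact ⟨_, ⟨A₀, A, rfl⟩, hA⟩
  linarith

end Pool.Agent.Helper73.PS
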